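import Pool.Agent.Helper42.FR.Stmts

/-! # Row CO: completions from approximate solutions -/

set_option autoImplicit false

namespace Pool.Agent.Helper42.FR

open Matrix Pool.Agent.Helper81.Fmr

universe u

section
variable {F : Type u} [Field F] {V μ : Type} [DecidableEq V]

theorem approx2 [Fintype V] [Fintype μ] (S : Sys F V μ) (b : ℕ)
    (z : V → Matrix (Fin b) (Fin b) F)
    (hk : ∀ i a, S.k i = some a → z i = a • 1)
    (s : Finset (((V × Bool) ⊕ μ) × Fin b))
    (hm : ∀ m c, (Sum.inr m, c) ∉ s → ∀ e, (z (S.l m) * z (S.r m)) e c = z (S.o m) e c)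
    (hd : ∀ i j a, i ≠ j → S.d i j = some a → ∀ c, (Sum.inl (j, false), c) ∉ s → ∀ e,
      (z i - z j) e c = (a • (1 : Matrix (Fin b) (Fin b) F)) e c) :
    ∃ M, IsCompletion (pm S) b M ∧ M.rank ≤ 3 * b + s.card ∧
      ∀ i, blk M (Sum.inr (some (i, 1))) (Sum.inl 2) = z i := by
  classical
  set U : Matrix ((Fin 3 ⊕ Option (V × Fin 3)) × Fin b) (Fin 3 × Fin b) F :=
    Matrix.of fun x y => Mz S z x.1 (Sum.inl y.1) x.2 y.2 with hU
  set W : Matrix (Fin 3 × Fin b) ((Fin 3 ⊕ ((V × Bool) ⊕ μ)) × Fin b) F :=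
    Matrix.of fun x y => Mz S z (Sum.inl x.1) y.1 x.2 y.2 with hW
  set D : Matrix ((Fin 3 ⊕ Option (V × Fin 3)) × Fin b) ((Fin 3 ⊕ ((V × Bool) ⊕ μ)) × Fin b) F :=
    Matrix.of fun x y => match x.1, y.1 with
      | Sum.inr i, Sum.inr j => Dz S z i j x.2 y.2
      | _, _ => 0 with hD
  refine ⟨Matrix.of fun x y => Mz S z x.1 y.1 x.2 y.2, ?_, ?_, fun i => rfl⟩
  · intro i j a h k l
    simp only [Matrix.of_apply]
    rw [Mz_spec S z hk i j a h]
    simp [Matrix.one_apply]
  · have hdec : (Matrix.of fun (x : (Fin 3 ⊕ Option (V × Fin 3)) × Fin b) y =>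
        Mz S z x.1 y.1 x.2 y.2) = U * W + D := by
      ext ⟨i, k⟩ ⟨j, l⟩
      simp only [hU, hW, hD, Matrix.of_apply, Matrix.add_apply, Matrix.mul_apply]
      rw [Fintype.sum_prod_type]
      have h2 : ∀ x : Fin 3, (∑ y, Mz S z i (Sum.inl x) k y * Mz S z (Sum.inl x) j y l) =
          (Mz S z i (Sum.inl x) * Mz S z (Sum.inl x) j) k l := fun x => rfl
      simp only [h2]
      rw [← Matrix.sum_apply, ]
      rcases i with x | i
      · rcases j with y | j
        · simp [Mz]
        · simp [Mz]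
      · rcases j with y | j
        · simp [Mz]
        · simp only [Mz, Matrix.add_apply]
    rw [hdec]
    refine le_trans (rank_add_le' _ _) (add_le_add ?_ ?_)
    · refine le_trans (rank_mul_le_left _ _) (le_trans (rank_le_card_width _) ?_)
      simp
    · refine le_trans (rank_le_cols D (s.map ⟨fun x => (Sum.inr x.1, x.2), ?_⟩) ?_) ?_
      · intro x y hxy
        simp only [Prod.mk.injEq, Sum.inr.injEq] at hxy
        exact Prod.ext hxy.1 hxy.2
      · rintro ⟨j, c⟩ hj ⟨i, k⟩
        rcases i with x | i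
        · simp [hD]
        rcases j with y | j
        · simp [hD]
        have hjs : (j, c) ∉ s := by
          intro hh
          apply hj
          simp only [Finset.mem_map]
          exact ⟨(j, c), hh, rfl⟩
        simp only [hD, Matrix.of_apply]
        rcases i with _ | ⟨i, e⟩
        · rfl
        · rcases j with ⟨j, bb⟩ | m
          · rcases bb with _ | _
            · fin_cases e
              · rfl
              · change (if i = j then 0 else (S.d i j).elim 0 (fun a => a • 1 - (z i - z j)) :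
                    Matrix (Fin b) (Fin b) F) k c = 0
                by_cases hij : i = j
                · simp [hij]
                · simp only [hij, if_false]
                  rcases hdd : S.d i j with _ | a
                  · simp
                  · have := hd i j a hij hdd c hjs k
                    simp only [Option.elim]
                    rw [Matrix.sub_apply, this, sub_self]
              · rfl
            · fin_cases e <;> rfl
          · fin_cases e
            · change (if S.l m = i then z (S.o m) - z i * z (S.r m) else 0 :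
                    Matrix (Fin b) (Fin b) F) k c = 0
              by_cases hij : S.l m = i
              · subst hij
                simp only [if_true]
                rw [Matrix.sub_apply, hm m c hjs k, sub_self]
              · simp [hij]
            · rfl
            · rfl
      · simp

theorem approx3 [Fintype V] [Fintype μ] (S : Sys F V μ) (b : ℕ)
    (z : V → Matrix (Fin b) (Fin b) F)
    (hk : ∀ i a, S.k i = some a → z i = a • 1) (bad : Finset (Fin b))
    (hm : ∀ m, ∀ c, c ∉ bad → ∀ e, (z (S.l m) * z (S.r m)) e c = z (S.o m) e c)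
    (hd : ∀ i j a, i ≠ j → S.d i j = some a → z i - z j = a • 1) :
    ∃ M, IsCompletion (pm S) b M ∧
      M.rank ≤ 3 * b + Fintype.card ((V × Bool) ⊕ μ) * bad.card ∧
      ∀ i, blk M (Sum.inr (some (i, 1))) (Sum.inl 2) = z i := by
  obtain ⟨M, hM, hMr, hMz⟩ := approx2 S b z hk
    ((Finset.univ : Finset ((V × Bool) ⊕ μ)) ×ˢ bad)
    (by
      intro m c hc a
      refine hm m c ?_ a
      intro hcb
      exact hc (Finset.mem_product.2 ⟨Finset.mem_univ _, hcb⟩))
    (by
      intro i j a hij h c _ e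
      rw [hd i j a hij h])
  rw [Finset.card_product, Finset.card_univ] at hMr
  exact ⟨M, hM, hMr, hMz⟩

theorem co_fin [Fintype V] [Fintype μ] [Nonempty V] (S : Sys F V μ) (v : V) (q : ℝ)
    (h1 : ∀ η : ℝ, 0 < η → ∃ b : ℕ, 0 < b ∧
      ∃ z : V → Matrix (Fin b) (Fin b) F, (∀ i a, S.k i = some a → z i = a • 1) ∧
      (((z v).rank : ℝ) ≤ q * b) ∧
      ∃ bad : Finset (Fin b), ((bad.card : ℝ) ≤ η * b) ∧
      (∀ m, ∀ c, c ∉ bad → ∀ a, (z (S.l m) * z (S.r m)) a c = z (S.o m) a c) ∧
      (∀ i j a, i ≠ j → S.d i j = some a → z i - z j = a • 1)) :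
    ∀ η : ℝ, 0 < η → ∃ b : ℕ, 0 < b ∧
      ∃ M, IsCompletion (pm S) b M ∧ ((M.rank : ℝ) ≤ 3 * b + η * b) ∧
      (((blk M (Sum.inr (some (v, 1))) (Sum.inl 2)).rank : ℝ) ≤ q * b) := by
  intro η hη
  obtain ⟨T, hT⟩ : ∃ T : ℕ, T = Fintype.card ((V × Bool) ⊕ μ) := ⟨_, rfl⟩
  have hT0 : 0 < T := by
    rw [hT]
    have : Nonempty ((V × Bool) ⊕ μ) := ⟨Sum.inl (v, true)⟩
    exact Fintype.card_pos
  have hT0' : (0 : ℝ) < T := by exact_mod_cast hT0
  obtain ⟨b, hb, z, hk, hr, bad, hbad, hm, hd⟩ := h1 (η / T) (by positivity)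
  obtain ⟨M, hM, hMr, hMz⟩ := approx3 S b z hk bad hm hd
  refine ⟨b, hb, M, hM, ?_, ?_⟩
  · rw [← hT] at hMr
    have h2 : (M.rank : ℝ) ≤ 3 * b + T * bad.card := by exact_mod_cast hMr
    have h3 : (T : ℝ) * bad.card ≤ T * (η / T * b) := mul_le_mul_of_nonneg_left hbad hT0'.le
    have h4 : (T : ℝ) * (η / T * b) = η * b := by field_simp
    linarith
  · rw [hMz]
    exact hr

end

theorem st_CO (F : Type u) [Field F] (h1 : ST_UP F) : ST_CO F :=
  haveI : Nonempty Vr := ⟨Vr.one⟩
  co_fin (SY F) Vr.e (Real.sqrt 5 - 2) h1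

end Pool.Agent.Helper42.FR
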