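import Pool.Agent.Helper44.FR.GR
import Pool.Agent.Helper24.FR.FN
import Pool.Agent.Helper4.FR.OR
import Pool.Agent.Helper49.FR.RC
import Pool.Agent.Helper52.FR.NUM
import Pool.Agent.Helper55.FR.ALG
import Pool.Agent.Helper21.FR.RB
import Pool.Agent.Helper70.FR.SR
import Pool.Agent.Helper38.FR.FO
import Pool.Agent.Helper64.FR.HH
import Pool.Agent.Helper27.FR.CF
import Pool.Agent.Helper22.FR.UP
import Pool.Agent.Helper42.FR.CO
import Pool.Agent.Helper62.FR.LO
import Pool.Agent.Helper98.FR.HI
import Pool.Agent.Helper88.FR.VAL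
import Pool.Agent.Helper60.FR.MAIN

/-! # Assembly: a partial matrix with irrational fractional minimal rank -/

set_option autoImplicit false

namespace Pool.Agent.Helper42.FR

universe u

open Pool.Agent.Helper81.Fmr

theorem main (F : Type u) [Field F] :
    ∃ (m n : ℕ) (A : Matrix (Fin m) (Fin n) (Option F)), Irrational (fmr A) := by
  have gr : ST_GR F := Pool.Agent.Helper44.FR.GR F
  have fn : ST_FN F := Pool.Agent.Helper24.FR.st_FN F gr
  have orr : ST_OR F := Pool.Agent.Helper4.FR.st_OR F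
  have rc : ST_RC F := Pool.Agent.Helper49.FR.st_RC F fn orr
  have num : ST_NUM := Pool.Agent.Helper52.FR.st_NUM
  have alg : ST_ALG F := Pool.Agent.Helper55.FR.st_ALG rc num
  have rb : ST_RB F := Pool.Agent.Helper21.FR.st_RB F
  have sr : ST_SR F := Pool.Agent.Helper70.FR.st_SR F
  have fo : ST_FO := Pool.Agent.Helper38.FR.st_FO
  have hh : ST_HH := Pool.Agent.Helper64.FR.st_HH
  have cf : ST_CF := Pool.Agent.Helper27.FR.st_CF
  have up : ST_UP F := Pool.Agent.Helper22.FR.st_UP F fo hh cf
  have co : ST_CO F := Pool.Agent.Helper42.FR.st_CO F up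
  have lo : ST_LO F := Pool.Agent.Helper62.FR.st_LO F
  have hi : ST_HI F := Pool.Agent.Helper98.FR.st_HI F
  have val : ST_VAL F := Pool.Agent.Helper88.FR.st_VAL F alg rb sr co lo hi
  exact Pool.Agent.Helper60.FR.st_MAIN F val

end Pool.Agent.Helper42.FR
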