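import Pool.Agent.Helper81.FmrMain

/-!
# Statement sheet: a partial matrix with irrational fractional minimal rank
-/

set_option autoImplicit false

namespace Pool.Agent.Helper42.FR

open Matrix Pool.Agent.Helper81.Fmr

universe u

section
variable {F : Type u} [Field F]

/-- equality up to rank `d` -/
def AE {b : ℕ} (d : ℕ) (X Y : Matrix (Fin b) (Fin b) F) : Prop := (X - Y).rank ≤ d

/-- the five orthogonal idempotents -/
def EE {b : ℕ} (s s' h h' e : Matrix (Fin b) (Fin b) F) : Fin 5 → Matrix (Fin b) (Fin b) F :=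
  ![e, h * e * h', h * (h * e * h') * h', h * (h * (h * e * h') * h') * h',
    h * (h * (h * (h * (e * (s' * e * s)) * h') * h') * h') * h']

/-- the relations, up to rank `d` -/
structure Rel {b : ℕ} (d : ℕ) (s s' t t' h h' k e : Matrix (Fin b) (Fin b) F) : Prop where
  ss : AE d (s * s') 1
  ss' : AE d (s' * s) 1
  tt : AE d (t * t') 1
  tt' : AE d (t' * t) 1
  hh : AE d (h * h') 1
  hh' : AE d (h' * h) 1
  ts : AE d (t * s) (s * k * t)
  kst : AE d (k * (s * t)) (s * t * k)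
  hst : AE d (h * (s * t)) (s * t * h)
  est : AE d (e * (s * t)) (s * t * e)
  ee : AE d (e * e) e
  te : AE d (t * (s * e * s')) (s * e * s' * t)
  ke : AE d (k * (s * e * s')) (s * e * s' * k)
  he : AE d (h * (s * e * s')) (s * e * s' * h)
  ee1 : AE d (e * (s * e * s')) (s * e * s' * e)
  orth : ∀ i j : Fin 5, i ≠ j → AE d (EE s s' h h' e i * EE s s' h h' e j) 0
  cov : AE d ((1 - EE s s' h h' e 0) * (1 - EE s s' h h' e 1) * (1 - EE s s' h h' e 2) *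
    (1 - EE s s' h h' e 3) * (1 - EE s s' h h' e 4)) 0

/-- the conjugates `e_j` -/
def ej {b : ℕ} (s s' e : Matrix (Fin b) (Fin b) F) : ℕ → Matrix (Fin b) (Fin b) F
  | 0 => e
  | (j + 1) => s * ej s s' e j * s'

/-- `f_n = e_1 e_2 ⋯ e_n` -/
def fn {b : ℕ} (s s' e : Matrix (Fin b) (Fin b) F) : ℕ → Matrix (Fin b) (Fin b) F
  | 0 => 1
  | (n + 1) => fn s s' e n * ej s s' e (n + 1)

end

/-- growth of the defects of the commutators -/
def ST_GR (F : Type u) [Field F] : Prop := ∃ C : ℕ, ∀ (b d : ℕ)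
  (s s' t t' h h' k e : Matrix (Fin b) (Fin b) F), Rel d s s' t t' h h' k e → ∀ j : ℕ,
  AE (C * 3 ^ j * d) (t * ej s s' e (j + 1)) (ej s s' e (j + 1) * t) ∧
  AE (C * 3 ^ j * d) (k * ej s s' e (j + 1)) (ej s s' e (j + 1) * k) ∧
  AE (C * 3 ^ j * d) (h * ej s s' e (j + 1)) (ej s s' e (j + 1) * h) ∧
  AE (C * 3 ^ j * d) (e * ej s s' e (j + 1)) (ej s s' e (j + 1) * e)

/-- the products `f_n` commute with `h`, `e`, `s⁻¹ e s` and are almost idempotent -/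
def ST_FN (F : Type u) [Field F] : Prop := ∃ C : ℕ, ∀ (b d : ℕ)
  (s s' t t' h h' k e : Matrix (Fin b) (Fin b) F), Rel d s s' t t' h h' k e → ∀ n : ℕ,
  AE (C * 3 ^ n * d) (h * fn s s' e n) (fn s s' e n * h) ∧
  AE (C * 3 ^ n * d) (e * fn s s' e n) (fn s s' e n * e) ∧
  AE (C * 3 ^ n * d) (s' * e * s * fn s s' e n) (fn s s' e n * (s' * e * s)) ∧
  AE (C * 3 ^ n * d) (s * (e * fn s s' e n) * s') (fn s s' e (n + 1)) ∧
  AE (C * 3 ^ n * d) (s * (s * (e * (s' * e * s) * fn s s' e n) * s') * s')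
    (fn s s' e (n + 2))

/-- almost orthogonal idempotents with sum `1` -/
def ST_OR (F : Type u) [Field F] : Prop := ∃ C : ℕ, ∀ (b c : ℕ)
  (E : Fin 5 → Matrix (Fin b) (Fin b) F) (f : Matrix (Fin b) (Fin b) F),
  (∀ i, AE c (E i * E i) (E i)) → (∀ i j, i ≠ j → AE c (E i * E j) 0) →
  AE c ((1 - E 0) * (1 - E 1) * (1 - E 2) * (1 - E 3) * (1 - E 4)) 0 →
  (∀ i, AE c (E i * f) (f * E i)) →
  f.rank ≤ (∑ i, (E i * f).rank) + C * c ∧ (∑ i, (E i * f).rank) ≤ f.rank + C * c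

/-- the recursion for the ranks -/
def ST_RC (F : Type u) [Field F] : Prop := ∃ C : ℕ, ∀ (b d : ℕ)
  (s s' t t' h h' k e : Matrix (Fin b) (Fin b) F), Rel d s s' t t' h h' k e → ∀ n : ℕ,
  (fn s s' e n).rank ≤ 4 * (fn s s' e (n + 1)).rank + (fn s s' e (n + 2)).rank +
    C * 3 ^ n * d ∧
  4 * (fn s s' e (n + 1)).rank + (fn s s' e (n + 2)).rank ≤ (fn s s' e n).rank +
    C * 3 ^ n * d

/-- the stable solution of the recursion -/
def ST_NUM : Prop := ∀ (y : ℕ → ℝ) (b D : ℝ), 0 ≤ D → (∀ n, 0 ≤ y n ∧ y n ≤ b) →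
  (∀ n, |y n - (4 * y (n + 1) + y (n + 2))| ≤ D * 3 ^ n) →
  |y 1 - (Real.sqrt 5 - 2) * y 0| ≤ D

/-- the lower bound for the rank of `e` -/
def ST_ALG (F : Type u) [Field F] : Prop := ∃ C : ℕ, ∀ (b d : ℕ)
  (s s' t t' h h' k e : Matrix (Fin b) (Fin b) F), Rel d s s' t t' h h' k e →
  (Real.sqrt 5 - 2) * b ≤ e.rank + C * d

/-- the stable form of `exact` -/
def ST_RB (F : Type u) [Field F] : Prop := ∀ (V μ : Type) (_ : DecidableEq V) (_ : Fintype V)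
  (_ : Fintype μ) (S : Sys F V μ) (b d : ℕ)
  (M : Matrix ((Fin 3 ⊕ Option (V × Fin 3)) × Fin b) ((Fin 3 ⊕ ((V × Bool) ⊕ μ)) × Fin b) F),
  IsCompletion (pm S) b M → M.rank ≤ 3 * b + d → ∀ z : V → Matrix (Fin b) (Fin b) F,
  (z = fun i => blk M (Sum.inr (some (i, 1))) (Sum.inl 2)) →
  (∀ m, AE (20 * d) (z (S.l m) * z (S.r m)) (z (S.o m))) ∧
  (∀ i j a, i ≠ j → S.d i j = some a → AE (20 * d) (z i - z j) (a • 1)) ∧
  (∀ i a, S.k i = some a → z i = a • 1)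

/-- the unknowns: see the names in the list `pr` of products -/
inductive Vr
  | one | zero | s | s' | t | t' | h | h' | k | e | e1 | em
  | se | es | ts | sk | st | kst | hst | est | te1 | ke1 | he1 | ee1 | q
  | E (i : Fin 5) | G (i : Fin 3) | hE (i : Fin 3) | hG (i : Fin 4) | n (i : Fin 5)
  | p (i : Fin 3)
  deriving DecidableEq, Fintype

/-- the list of the products `x * y = z` -/
def pr : List (Vr × Vr × Vr) :=
  [(.s, .s', .one), (.s', .s, .one), (.t, .t', .one), (.t', .t, .one), (.h, .h', .one),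
   (.h', .h, .one), (.e, .e, .e), (.s, .e, .se), (.e1, .s, .se), (.e, .s, .es), (.s, .em, .es),
   (.t, .s, .ts), (.s, .k, .sk), (.sk, .t, .ts), (.s, .t, .st), (.k, .st, .kst), (.st, .k, .kst),
   (.h, .st, .hst), (.st, .h, .hst), (.e, .st, .est), (.st, .e, .est),
   (.t, .e1, .te1), (.e1, .t, .te1), (.k, .e1, .ke1), (.e1, .k, .ke1), (.h, .e1, .he1),
   (.e1, .h, .he1), (.e, .e1, .ee1), (.e1, .e, .ee1), (.e, .em, .q), (.one, .e, .E 0),
   (.h, .E 0, .hE 0), (.E 1, .h, .hE 0), (.h, .E 1, .hE 1), (.E 2, .h, .hE 1),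
   (.h, .E 2, .hE 2), (.E 3, .h, .hE 2), (.h, .q, .hG 0), (.G 0, .h, .hG 0),
   (.h, .G 0, .hG 1), (.G 1, .h, .hG 1), (.h, .G 1, .hG 2), (.G 2, .h, .hG 2),
   (.h, .G 2, .hG 3), (.E 4, .h, .hG 3),
   (.E 0, .E 1, .zero), (.E 0, .E 2, .zero), (.E 0, .E 3, .zero), (.E 0, .E 4, .zero),
   (.E 1, .E 0, .zero), (.E 1, .E 2, .zero), (.E 1, .E 3, .zero), (.E 1, .E 4, .zero),
   (.E 2, .E 0, .zero), (.E 2, .E 1, .zero), (.E 2, .E 3, .zero), (.E 2, .E 4, .zero),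
   (.E 3, .E 0, .zero), (.E 3, .E 1, .zero), (.E 3, .E 2, .zero), (.E 3, .E 4, .zero),
   (.E 4, .E 0, .zero), (.E 4, .E 1, .zero), (.E 4, .E 2, .zero), (.E 4, .E 3, .zero),
   (.n 0, .n 1, .p 0), (.p 0, .n 2, .p 1), (.p 1, .n 3, .p 2), (.p 2, .n 4, .zero)]

/-- the system -/
def SY (F : Type u) [Field F] : Sys F Vr (Fin pr.length) where
  l m := (pr.get m).1
  r m := (pr.get m).2.1
  o m := (pr.get m).2.2
  d i j := match i, j with
    | .E i, .n j => if i = j then some 1 else none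
    | _, _ => none
  k i := match i with
    | .one => some 1
    | .zero => some 0
    | _ => none

/-- from the system to the relations -/
def ST_SR (F : Type u) [Field F] : Prop := ∃ C : ℕ, ∀ (b d : ℕ)
  (z : Vr → Matrix (Fin b) (Fin b) F),
  (∀ m, AE d (z ((SY F).l m) * z ((SY F).r m)) (z ((SY F).o m))) →
  (∀ i j a, i ≠ j → (SY F).d i j = some a → AE d (z i - z j) (a • 1)) →
  (∀ i a, (SY F).k i = some a → z i = a • 1) →
  Rel (C * d) (z .s) (z .s') (z .t) (z .t') (z .h) (z .h') (z .k) (z .e)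

/-- the sites -/
abbrev Om := ℤ ⊕ ℕ

/-- Følner sets -/
def ST_FO : Prop := ∀ N : ℕ, 0 < N → ∃ (G Y : Type) (_ : Fintype G) (_ : DecidableEq G)
  (_ : Fintype Y) (_ : DecidableEq Y) (_ : Nonempty G) (s t : Equiv.Perm G) (x : G → Y)
  (bad : Finset G), bad.card * N ≤ Fintype.card G ∧ ∀ g : G, g ∉ bad →
  x g ≠ x (s g) ∧ x g ≠ x (s⁻¹ g) ∧ x (s g) ≠ x (s⁻¹ g) ∧
  x (s (t g)) = x g ∧ x (s (s (t g))) = x (s g) ∧ x (s⁻¹ (t g)) = x (s⁻¹ g) ∧
  x (s⁻¹ (s⁻¹ (t (s (t⁻¹ g))))) = x (s⁻¹ g) ∧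
  s⁻¹ (t (s (t⁻¹ (s (t g))))) = s (t (s⁻¹ (t (s (t⁻¹ g)))))

/-- the local permutation -/
def ST_HH : Prop := ∀ q k : ℕ, k ≤ q → 4 * k * q + k * k + 1 = q * q →
  ∃ H : Equiv.Perm (Fin q × Fin q), ∃ (A : Fin 5 → Finset (Fin q × Fin q)),
  (∀ y, y ∈ A 0 ↔ (y.1 : ℕ) < k) ∧ (∀ y, H y ∈ A 1 ↔ y ∈ A 0) ∧ (∀ y, H y ∈ A 2 ↔ y ∈ A 1) ∧
  (∀ y, H y ∈ A 3 ↔ y ∈ A 2) ∧
  (∀ y, H (H (H (H y))) ∈ A 4 ↔ ((y.1 : ℕ) < k ∧ (y.2 : ℕ) < k)) ∧
  (∀ i j, i ≠ j → Disjoint (A i) (A j)) ∧ (Finset.univ \ (Finset.univ.biUnion A)).card ≤ 1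

/-- good approximations of `√5 - 2` -/
def ST_CF : Prop := ∀ N : ℕ, ∃ q k : ℕ, N ≤ q ∧ k ≤ q ∧ 4 * k * q + k * k + 1 = q * q ∧
  (k : ℝ) / q ≤ Real.sqrt 5 - 2

/-- approximate solutions -/
def ST_UP (F : Type u) [Field F] : Prop := ∀ η : ℝ, 0 < η → ∃ b : ℕ, 0 < b ∧
  ∃ z : Vr → Matrix (Fin b) (Fin b) F, (∀ i a, (SY F).k i = some a → z i = a • 1) ∧
  (((z .e).rank : ℝ) ≤ (Real.sqrt 5 - 2) * b) ∧
  ∃ bad : Finset (Fin b), ((bad.card : ℝ) ≤ η * b) ∧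
  (∀ m, ∀ c, c ∉ bad → ∀ a, (z ((SY F).l m) * z ((SY F).r m)) a c = z ((SY F).o m) a c) ∧
  (∀ i j a, i ≠ j → (SY F).d i j = some a → z i - z j = a • 1)

/-- completions from approximate solutions -/
def ST_CO (F : Type u) [Field F] : Prop := ∀ η : ℝ, 0 < η → ∃ b : ℕ, 0 < b ∧
  ∃ M, IsCompletion (pm (SY F)) b M ∧ ((M.rank : ℝ) ≤ 3 * b + η * b) ∧
  (((blk M (Sum.inr (some (Vr.e, 1))) (Sum.inl 2)).rank : ℝ) ≤ (Real.sqrt 5 - 2) * b)

/-- `K` copies and one column that reads the unknown `v` -/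
def tot {F : Type u} [Field F] {V μ : Type} [DecidableEq V] (K : ℕ) (S : Sys F V μ) (v : V) :
    Matrix (Fin K × (Fin 3 ⊕ Option (V × Fin 3)))
      (Option (Fin K × (Fin 3 ⊕ ((V × Bool) ⊕ μ)))) (Option F) := fun i j =>
  match j with
  | some (l, j') => if i.1 = l then pm S i.2 j' else some 0
  | none => match i.2 with
    | Sum.inl a => some (if a = 2 then 1 else 0)
    | Sum.inr (some (w, 1)) => if w = v then some 0 else none
    | _ => none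

/-- lower bound for the rank of the completions -/
def ST_LO (F : Type u) [Field F] : Prop := ∀ (V μ : Type) (_ : DecidableEq V) (_ : Fintype V)
  (_ : Fintype μ) (S : Sys F V μ) (v : V) (K b : ℕ)
  (M : Matrix ((Fin K × (Fin 3 ⊕ Option (V × Fin 3))) × Fin b)
    ((Option (Fin K × (Fin 3 ⊕ ((V × Bool) ⊕ μ)))) × Fin b) F),
  IsCompletion (tot K S v) b M →
  ∃ N : Fin K → Matrix ((Fin 3 ⊕ Option (V × Fin 3)) × Fin b)
    ((Fin 3 ⊕ ((V × Bool) ⊕ μ)) × Fin b) F, (∀ k, IsCompletion (pm S) b (N k)) ∧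
  ∀ k₀, (∑ k ∈ Finset.univ.erase k₀, (N k).rank) + 3 * b +
    (blk (N k₀) (Sum.inr (some (v, 1))) (Sum.inl 2)).rank ≤ M.rank

/-- upper bound for the least rank -/
def ST_HI (F : Type u) [Field F] : Prop := ∀ (V μ : Type) (_ : DecidableEq V) (_ : Fintype V)
  (_ : Fintype μ) (S : Sys F V μ) (v : V) (K b : ℕ)
  (N : Matrix ((Fin 3 ⊕ Option (V × Fin 3)) × Fin b) ((Fin 3 ⊕ ((V × Bool) ⊕ μ)) × Fin b) F),
  IsCompletion (pm S) b N →
  mr (tot K S v) b ≤ K * N.rank + (blk N (Sum.inr (some (v, 1))) (Sum.inl 2)).rank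

/-- the value -/
def ST_VAL (F : Type u) [Field F] : Prop := ∃ K : ℕ,
  fmr (tot K (SY F) Vr.e) = 3 * K + (Real.sqrt 5 - 2)

/-- the theorem -/
def ST_MAIN (F : Type u) [Field F] : Prop :=
  ∃ (m n : ℕ) (A : Matrix (Fin m) (Fin n) (Option F)), Irrational (fmr A)

end Pool.Agent.Helper42.FR
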